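import Pool.Agent.X318.LineSum

/-!
# Uniform multipliers for the double sums of `S_n^{(r)}`

Let `Y_j(n) = C(2j,j) ∑_{k<n} C(k,j)²`. Then `(2j+3) Y_{j+1}(n) - (2j+1) Y_j(n)` is the number
`T_j(n) = C(2j+1,j) C(n,j+1)² (2n - 3(j+1))`, and `Y_0(n) = n`. For an integer polynomial `s` the
sum `∑_{j<n} s(j) (2j+1) Y_j(n)` is therefore equal to `n σ(n) + ∑_i T_i(n) (σ(n) - σ(i+1))`, where
`σ(m) = s(0) + ⋯ + s(m-1)`, and `D σ(m)` is divisible by `m` for a constant `D`. Since `n²` divides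
`n T_i(n)` and `(i+1) T_i(n)`, it divides `D` times the sum.
-/

set_option autoImplicit false

open Finset

namespace Pool.Agent.Results.MP_e2f147_nt.UniformMultipliers

/-- The sums `S_n^{(r)}`. -/
def S (r n : ℕ) : ℤ := ∑ k ∈ range (n + 1), (n.choose k : ℤ) ^ 2 * (2 * k).choose k * (2 * k + 1) ^ r

/-- The double sums `A_r(n)`. -/
def A (r n : ℕ) : ℤ := ∑ k ∈ range n, S (2 * r - 1) k

/-- The double sums `B_r(n)`. -/
def B (r n : ℕ) : ℤ := ∑ k ∈ range n, (k : ℤ) * S r k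

/-! ### Polynomial functions -/

/-- The integral combinations of binomial coefficients. -/
def V : Submodule ℤ (ℕ → ℤ) := Submodule.span ℤ (Set.range fun i : ℕ => fun l : ℕ => (l.choose i : ℤ))

lemma V_one : (fun _ => (1 : ℤ)) ∈ V := by
  refine Submodule.subset_span ⟨0, ?_⟩
  ext l
  simp

lemma V_mul {s : ℕ → ℤ} (hs : s ∈ V) (a b : ℤ) : (fun l : ℕ => (a * l + b) * s l) ∈ V := by
  unfold V at hs
  induction hs using Submodule.span_induction with
  | mem s hs =>
    obtain ⟨i, rfl⟩ := hs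
    have h : (fun l : ℕ => (a * l + b) * (l.choose i : ℤ)) =
        (a * (i + 1)) • (fun l : ℕ => (l.choose (i + 1) : ℤ)) +
          (a * i + b) • (fun l : ℕ => (l.choose i : ℤ)) := by
      ext l
      have h1 := Pool.Agent.X318.LineSum.choose_succ_int l i
      simp only [Pi.add_apply, Pi.smul_apply, smul_eq_mul]
      linear_combination - a * h1
    rw [h]
    exact Submodule.add_mem _ (Submodule.smul_mem _ _ (Submodule.subset_span ⟨i + 1, rfl⟩))
      (Submodule.smul_mem _ _ (Submodule.subset_span ⟨i, rfl⟩))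
  | zero =>
    have : (fun l : ℕ => (a * l + b) * (0 : ℕ → ℤ) l) = 0 := by
      ext l
      simp
    rw [this]
    exact Submodule.zero_mem _
  | add f g _ _ hf hg =>
    have : (fun l : ℕ => (a * l + b) * (f + g) l) =
        (fun l : ℕ => (a * l + b) * f l) + fun l : ℕ => (a * l + b) * g l := by
      ext l
      simp
      ring
    rw [this]
    exact Submodule.add_mem _ hf hg
  | smul c f _ hf =>
    have : (fun l : ℕ => (a * l + b) * (c • f) l) = c • fun l : ℕ => (a * l + b) * f l := by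
      ext l
      simp
      ring
    rw [this]
    exact Submodule.smul_mem _ _ hf

lemma V_pow (r : ℕ) : (fun l : ℕ => (2 * (l : ℤ) + 1) ^ r) ∈ V := by
  induction r with
  | zero =>
    simpa using V_one
  | succ r ih =>
    have h := V_mul ih 2 1
    have h1 : (fun l : ℕ => (2 * (l : ℤ) + 1) ^ (r + 1)) =
        fun l : ℕ => (2 * (l : ℤ) + 1) * (2 * (l : ℤ) + 1) ^ r := by
      ext l
      rw [pow_succ]
      ring
    rw [h1]
    exact h

lemma hockey (m i : ℕ) : ∑ l ∈ range m, (l.choose i : ℤ) = m.choose (i + 1) := by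
  induction m with
  | zero => simp
  | succ m ih =>
    rw [sum_range_succ, ih, Nat.choose_succ_succ]
    push_cast
    ring

lemma succ_mul_choose (m i : ℕ) : ((i : ℤ) + 1) * (m + 1).choose (i + 1) = (m + 1) * m.choose i := by
  have h := congrArg (Nat.cast : ℕ → ℤ) (Nat.add_one_mul_choose_eq m i)
  push_cast at h
  linear_combination - h

/-- The sums of a polynomial function, up to a constant, are multiples of the length. -/
lemma V_sum {s : ℕ → ℤ} (hs : s ∈ V) : ∃ (D : ℤ) (q : ℕ → ℤ), D ≠ 0 ∧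
    ∀ m : ℕ, D * ∑ l ∈ range m, s l = m * q m := by
  unfold V at hs
  induction hs using Submodule.span_induction with
  | mem s hs =>
    obtain ⟨i, rfl⟩ := hs
    refine ⟨i + 1, fun m => (m - 1).choose i, by positivity, fun m => ?_⟩
    dsimp only
    rcases Nat.eq_zero_or_pos m with rfl | hm
    · simp
    obtain ⟨m, rfl⟩ : ∃ l, m = l + 1 := ⟨m - 1, by omega⟩
    rw [hockey, Nat.add_sub_cancel, succ_mul_choose]
    push_cast
    ring
  | zero => exact ⟨1, fun _ => 0, one_ne_zero, fun m => by simp⟩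
  | add f g _ _ hf hg =>
    obtain ⟨D, q, hD, h⟩ := hf
    obtain ⟨D', q', hD', h'⟩ := hg
    refine ⟨D * D', fun m => D' * q m + D * q' m, mul_ne_zero hD hD', fun m => ?_⟩
    simp only [Pi.add_apply]
    rw [sum_add_distrib]
    linear_combination D' * h m + D * h' m
  | smul c f _ hf =>
    obtain ⟨D, q, hD, h⟩ := hf
    refine ⟨D, fun m => c * q m, hD, fun m => ?_⟩
    simp only [Pi.smul_apply, smul_eq_mul]
    rw [← mul_sum]
    linear_combination c * h m

/-! ### The recursion -/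

/-- The numbers `Y_j(n)`. -/
def Y (j n : ℕ) : ℤ := (2 * j).choose j * ∑ k ∈ range n, (k.choose j : ℤ) ^ 2

/-- The numbers `T_j(n)`. -/
def T (j n : ℕ) : ℤ := (2 * j + 1).choose j * (n.choose (j + 1) : ℤ) ^ 2 * (2 * n - 3 * (j + 1))

lemma central_succ (j : ℕ) : ((2 * (j + 1)).choose (j + 1) : ℤ) = 2 * (2 * j + 1).choose j := by
  have h : (2 * (j + 1)).choose (j + 1) = 2 * (2 * j + 1).choose j := by
    rw [show 2 * (j + 1) = (2 * j + 1) + 1 by ring, Nat.choose_succ_succ]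
    have : (2 * j + 1).choose (j + 1) = (2 * j + 1).choose j := by
      rw [← Nat.choose_symm (show j ≤ 2 * j + 1 by omega)]
      congr 1
      omega
    rw [this]
    ring
  exact_mod_cast h

lemma central_mul (j : ℕ) : (2 * (j : ℤ) + 1) * (2 * j).choose j = (j + 1) * (2 * j + 1).choose j := by
  have h := Nat.choose_mul_succ_eq (2 * j) j
  rw [show 2 * j + 1 - j = j + 1 by omega] at h
  have h2 := congrArg (Nat.cast : ℕ → ℤ) h
  push_cast at h2
  linear_combination h2

lemma recursion (j n : ℕ) : (2 * (j : ℤ) + 3) * Y (j + 1) n = (2 * j + 1) * Y j n + T j n := by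
  induction n with
  | zero => simp [Y, T]
  | succ n ih =>
    unfold Y T at ih ⊢
    rw [sum_range_succ, sum_range_succ]
    have h1 := central_succ j
    have h2 := central_mul j
    have h3 := Pool.Agent.X318.LineSum.choose_succ_int n j
    have h4 : ((n + 1).choose (j + 1) : ℤ) = n.choose j + n.choose (j + 1) := by
      rw [Nat.choose_succ_succ]
      push_cast
      ring
    rw [h4]
    push_cast at h1 h2 h3 ih ⊢
    rw [h1] at ih ⊢
    linear_combination ih + (4 * ((2 * j + 1).choose j : ℤ) * (n.choose (j + 1) : ℤ) +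
      2 * ((2 * j + 1).choose j : ℤ) * (n.choose j : ℤ)) * h3 - (n.choose j : ℤ) ^ 2 * h2

lemma Y_zero (n : ℕ) : Y 0 n = n := by
  simp [Y]

lemma Y_eq (j n : ℕ) : (2 * (j : ℤ) + 1) * Y j n = n + ∑ i ∈ range j, T i n := by
  induction j with
  | zero => simp [Y_zero]
  | succ j ih =>
    rw [sum_range_succ, ← add_assoc, ← ih, ← recursion]
    push_cast
    ring

/-- Summation by parts. -/
lemma parts (n N : ℕ) (s : ℕ → ℤ) : ∑ j ∈ range N, s j * ((2 * (j : ℤ) + 1) * Y j n) =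
    n * ∑ l ∈ range N, s l + ∑ i ∈ range N, T i n * (∑ l ∈ range N, s l - ∑ l ∈ range (i + 1), s l) := by
  induction N with
  | zero => simp
  | succ N ih =>
    rw [sum_range_succ, ih, Y_eq, sum_range_succ (fun i => T i n * _), sub_self, mul_zero, add_zero,
      sum_range_succ s]
    have h : ∑ i ∈ range N, T i n * (∑ l ∈ range N, s l + s N - ∑ l ∈ range (i + 1), s l) =
        ∑ i ∈ range N, T i n * (∑ l ∈ range N, s l - ∑ l ∈ range (i + 1), s l) +
          s N * ∑ i ∈ range N, T i n := by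
      rw [mul_sum, ← sum_add_distrib]
      exact sum_congr rfl fun i _ => by ring
    rw [h]
    ring

/-- The sums with weights divisible by `2 j + 1`. -/
lemma main {s : ℕ → ℤ} (hs : s ∈ V) : ∃ D : ℤ, D ≠ 0 ∧ ∀ n : ℕ, 1 ≤ n →
    ((n : ℤ) ^ 2 ∣ D * ∑ j ∈ range n, s j * ((2 * (j : ℤ) + 1) * Y j n)) := by
  obtain ⟨D, q, hD, h⟩ := V_sum hs
  refine ⟨D, hD, fun n hn => ?_⟩
  obtain ⟨m, rfl⟩ : ∃ l, n = l + 1 := ⟨n - 1, by omega⟩
  rw [parts, mul_add]
  refine dvd_add ⟨q (m + 1), ?_⟩ ?_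
  · have := h (m + 1)
    linear_combination ((m + 1 : ℕ) : ℤ) * this
  · rw [mul_sum]
    refine dvd_sum fun i _ => ?_
    have h1 := h (m + 1)
    have h2 := h (i + 1)
    have h3 := succ_mul_choose m i
    refine ⟨(2 * i + 1).choose i * (2 * (m + 1).choose (i + 1) - 3 * m.choose i) *
      ((m + 1).choose (i + 1) * q (m + 1) - m.choose i * q (i + 1)), ?_⟩
    unfold T
    push_cast at h1 h2 h3 ⊢
    set c : ℤ := ((2 * i + 1).choose i : ℤ)
    set b : ℤ := ((m + 1).choose (i + 1) : ℤ)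
    set a : ℤ := (m.choose i : ℤ)
    linear_combination (c * b ^ 2 * (2 * (m + 1) - 3 * (i + 1))) * (h1 - h2) -
      3 * c * (m + 1) * q (m + 1) * b * h3 -
      c * q (i + 1) * (2 * (m + 1) * b - 3 * ((i + 1) * b + (m + 1) * a)) * h3

/-! ### The double sums -/

lemma choose_sq_zero {j k : ℕ} (h : k < j) : (k.choose j : ℤ) ^ 2 = 0 := by
  rw [Nat.choose_eq_zero_of_lt h]
  simp

/-- Exchanging the sums. -/
lemma exchange (n : ℕ) (u : ℕ → ℤ) (v : ℕ → ℤ) : ∑ k ∈ range n, v k *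
      ∑ j ∈ range (k + 1), (k.choose j : ℤ) ^ 2 * (2 * j).choose j * u j =
    ∑ j ∈ range n, (2 * j).choose j * u j * ∑ k ∈ range n, v k * (k.choose j : ℤ) ^ 2 := by
  have h1 : ∀ k ∈ range n, v k * ∑ j ∈ range (k + 1), (k.choose j : ℤ) ^ 2 * (2 * j).choose j * u j =
      ∑ j ∈ range n, (2 * j).choose j * u j * (v k * (k.choose j : ℤ) ^ 2) := by
    intro k hk
    have hk' := mem_range.1 hk
    rw [mul_sum]
    refine Eq.trans ?_ (sum_subset (s₁ := range (k + 1)) (s₂ := range n)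
      (range_subset_range.2 (by omega)) ?_)
    · exact sum_congr rfl fun j _ => by ring
    · intro j _ hj
      rw [mem_range, not_lt] at hj
      rw [choose_sq_zero (by omega)]
      ring
  rw [sum_congr rfl h1, sum_comm]
  exact sum_congr rfl fun j _ => by rw [mul_sum]

/-- The square of `n` divides the sums with the weight `2 k - j + 1`. -/
lemma line (j n : ℕ) (hn : 1 ≤ n) : (n : ℤ) ^ 2 ∣
    ((2 * j).choose j : ℤ) * ∑ k ∈ range n, (2 * (k : ℤ) - j + 1) * (k.choose j : ℤ) ^ 2 := by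
  obtain ⟨m, rfl⟩ : ∃ l, n = l + 1 := ⟨n - 1, by omega⟩
  have h1 := Pool.Agent.X318.LineSum.even_sum j 0 m
  have h2 : ∑ k ∈ range (m + 1), (2 * (k : ℤ) - j + 1) * (k.choose j : ℤ) ^ 2 =
      ((m : ℤ) + 1) * ((m.choose j : ℤ) * ((m + 1).choose (j + 1) : ℤ)) := by
    have h3 : ∑ k ∈ range (m + 1), (2 * (k : ℤ) - j + 1) * (k.choose j : ℤ) ^ 2 =
        ∑ k ∈ range (m + 1), (2 * (k : ℤ) - j + 1) *
          (k.choose j * Pool.Agent.X318.LineSum.U j 0 k) := by
      refine sum_congr rfl fun k _ => ?_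
      unfold Pool.Agent.X318.LineSum.U
      rw [add_zero, add_zero, Nat.choose_zero_right, Nat.cast_one, one_mul, sq]
    rw [h3, h1]
    simp
  have h4 := succ_mul_choose m j
  have h5 : (j + 1) * catalan j = (2 * j).choose j := by
    have := succ_mul_catalan_eq_centralBinom j
    rwa [Nat.centralBinom_eq_two_mul_choose] at this
  have h6 := congrArg (Nat.cast : ℕ → ℤ) h5
  refine ⟨catalan j * (m.choose j : ℤ) ^ 2, ?_⟩
  rw [h2]
  push_cast at h4 h6 ⊢
  rw [← h6]
  linear_combination (catalan j : ℤ) * (m + 1) * (m.choose j : ℤ) * h4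

lemma A_eq (r n : ℕ) (hr : 1 ≤ r) : A r n =
    ∑ j ∈ range n, (2 * (j : ℤ) + 1) ^ (2 * r - 2) * ((2 * (j : ℤ) + 1) * Y j n) := by
  have h := exchange n (fun j => (2 * (j : ℤ) + 1) ^ (2 * r - 1)) (fun _ => 1)
  simp only [one_mul] at h
  unfold A S
  rw [h]
  refine sum_congr rfl fun j _ => ?_
  unfold Y
  rw [show 2 * r - 1 = (2 * r - 2) + 1 by omega, pow_succ]
  ring

lemma B_eq (r n : ℕ) (hr : 1 ≤ r) : 2 * B r n =
    ∑ j ∈ range n, (2 * (j : ℤ) + 1) ^ r * ((2 * j).choose j *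
      ∑ k ∈ range n, (2 * (k : ℤ) - j + 1) * (k.choose j : ℤ) ^ 2) +
    ∑ j ∈ range n, ((1 * (j : ℤ) + (-1)) * (2 * (j : ℤ) + 1) ^ (r - 1)) *
      ((2 * (j : ℤ) + 1) * Y j n) := by
  have h := exchange n (fun j => (2 * (j : ℤ) + 1) ^ r) (fun k => (k : ℤ))
  unfold B S
  rw [h, mul_sum, ← sum_add_distrib]
  refine sum_congr rfl fun j _ => ?_
  unfold Y
  have h1 : ∑ k ∈ range n, (2 * (k : ℤ) - j + 1) * (k.choose j : ℤ) ^ 2 =
      2 * ∑ k ∈ range n, (k : ℤ) * (k.choose j : ℤ) ^ 2 -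
        ((j : ℤ) - 1) * ∑ k ∈ range n, (k.choose j : ℤ) ^ 2 := by
    rw [mul_sum, mul_sum, ← sum_sub_distrib]
    exact sum_congr rfl fun k _ => by ring
  rw [h1]
  obtain ⟨l, rfl⟩ : ∃ l, r = l + 1 := ⟨r - 1, by omega⟩
  rw [Nat.add_sub_cancel, pow_succ]
  ring

/-- For every positive integer `r` there are nonzero multipliers `a` and `b`, independent of `n`,
such that `n²` divides `a A_r(n)` and `b B_r(n)` for all positive `n`. -/
theorem result (r : ℕ) (hr : 1 ≤ r) : ∃ a b : ℤ, a ≠ 0 ∧ b ≠ 0 ∧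
    ∀ n : ℕ, 1 ≤ n → (n : ℤ) ^ 2 ∣ a * A r n ∧ (n : ℤ) ^ 2 ∣ b * B r n := by
  obtain ⟨D, hD, h⟩ := main (V_pow (2 * r - 2))
  obtain ⟨D', hD', h'⟩ := main (V_mul (V_pow (r - 1)) 1 (-1))
  refine ⟨D, D' * 2, hD, mul_ne_zero hD' two_ne_zero, fun n hn => ⟨?_, ?_⟩⟩
  · rw [A_eq r n hr]
    exact h n hn
  · rw [mul_assoc, B_eq r n hr, mul_add]
    refine dvd_add ?_ (h' n hn)
    exact (dvd_sum fun j _ => (line j n hn).mul_left _).mul_left _

end Pool.Agent.Results.MP_e2f147_nt.UniformMultipliers
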